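import Mathlib

set_option autoImplicit false

namespace Pool.Agent.Results.MP_6df474_gt.SimplexViolates

open Set MeasureTheory Metric
open scoped MeasureTheory

/-- Euclidean space of dimension `n`. -/
abbrev E (n : ℕ) := EuclideanSpace ℝ (Fin n)

/-- `V_2(K)`: half the surface area of `K` (normalised 2-dimensional Hausdorff measure of the
boundary). -/
noncomputable def V2 (K : Set (E 3)) : ℝ := (μHE[2] (frontier K)).toReal / 2

/-- The section `K ∩ e_iᗮ`, read in the two remaining coordinates. -/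
def sec (i : Fin 3) (K : Set (E 3)) : Set (E 2) :=
  {p | (WithLp.toLp 2 (i.insertNth (0 : ℝ) p.ofLp : Fin 3 → ℝ) : E 3) ∈ K}

/-- `ℓ_i(K) = V_1(K ∩ e_iᗮ)`: half the perimeter of the section. -/
noncomputable def ell (i : Fin 3) (K : Set (E 3)) : ℝ := (μH[1] (frontier (sec i K))).toReal / 2

/-- the standard triangle -/
def T : Set (E 2) := {p | 0 ≤ p 0 ∧ 0 ≤ p 1 ∧ p 0 + p 1 ≤ 1}

/-- the standard simplex with vertices `0, e₁, e₂, e₃` -/
def K : Set (E 3) := {x | 0 ≤ x 0 ∧ 0 ≤ x 1 ∧ 0 ≤ x 2 ∧ x 0 + x 1 + x 2 ≤ 1}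

lemma ins0 (i : Fin 3) (p : Fin 2 → ℝ) : (i.insertNth (0 : ℝ) p : Fin 3 → ℝ) =
    match i with
    | 0 => ![0, p 0, p 1]
    | 1 => ![p 0, 0, p 1]
    | 2 => ![p 0, p 1, 0] := by
  fin_cases i <;> (ext j; fin_cases j <;> rfl)

lemma sec_K (i : Fin 3) : sec i K = T := by
  ext p
  unfold sec K T
  simp only [mem_ofPred_eq, ins0]
  fin_cases i
  · simp
  · simp
  · simp

lemma T_closed : IsClosed T := by
  have : T = {p : E 2 | 0 ≤ p 0} ∩ ({p | 0 ≤ p 1} ∩ {p | p 0 + p 1 ≤ 1}) := by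
    ext p; simp [T]
  rw [this]
  exact (isClosed_le continuous_const (by fun_prop)).inter
    ((isClosed_le continuous_const (by fun_prop)).inter
      (isClosed_le (by fun_prop) continuous_const))

lemma K_closed : IsClosed K := by
  have : K = {p : E 3 | 0 ≤ p 0} ∩ ({p | 0 ≤ p 1} ∩ ({p | 0 ≤ p 2} ∩ {p | p 0 + p 1 + p 2 ≤ 1})) := by
    ext p; simp [K]
  rw [this]
  exact (isClosed_le continuous_const (by fun_prop)).inter
    ((isClosed_le continuous_const (by fun_prop)).inter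
    ((isClosed_le continuous_const (by fun_prop)).inter
      (isClosed_le (by fun_prop) continuous_const)))

/-- unit vectors of the plane -/
noncomputable abbrev a0 : E 2 := EuclideanSpace.single 0 1
noncomputable abbrev a1 : E 2 := EuclideanSpace.single 1 1

lemma dec (p : E 2) : p = p 0 • a0 + p 1 • a1 := by
  ext i
  fin_cases i <;> simp [a0, a1]

lemma segA : segment ℝ (0 : E 2) a1 = {p | p ∈ T ∧ p 0 = 0} := by
  ext p
  constructor
  · rintro ⟨s, t, hs, ht, hst, rfl⟩
    simp [T, a1]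
    exact ⟨ht, by linarith⟩
  · rintro ⟨⟨h0, h1, h2⟩, h3⟩
    refine ⟨1 - p 1, p 1, by linarith, h1, by ring, ?_⟩
    conv_rhs => rw [dec p, h3]
    simp

lemma segB : segment ℝ (0 : E 2) a0 = {p | p ∈ T ∧ p 1 = 0} := by
  ext p
  constructor
  · rintro ⟨s, t, hs, ht, hst, rfl⟩
    simp [T, a0]
    exact ⟨ht, by linarith⟩
  · rintro ⟨⟨h0, h1, h2⟩, h3⟩
    refine ⟨1 - p 0, p 0, by linarith, h0, by ring, ?_⟩
    conv_rhs => rw [dec p, h3]
    simp

lemma segC : segment ℝ a0 a1 = {p | p ∈ T ∧ p 0 + p 1 = 1} := by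
  ext p
  constructor
  · rintro ⟨s, t, hs, ht, hst, rfl⟩
    simp [T, a0, a1]
    exact ⟨⟨hs, ht, hst.le⟩, hst⟩
  · rintro ⟨⟨h0, h1, h2⟩, h3⟩
    exact ⟨p 0, p 1, h0, h1, h3, (dec p).symm⟩

lemma push {n : ℕ} {S : Set (E n)} {p : E n} (hp : p ∈ interior S) (d : E n) :
    ∃ t : ℝ, 0 < t ∧ p + t • d ∈ S := by
  have h1 : Filter.Tendsto (fun t : ℝ => p + t • d) (nhdsWithin 0 (Ioi 0)) (nhds (p + (0 : ℝ) • d)) := by
    apply Filter.Tendsto.mono_left _ nhdsWithin_le_nhds
    exact (by fun_prop : Continuous fun t : ℝ => p + t • d).tendsto 0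
  rw [zero_smul, add_zero] at h1
  have h2 := h1.eventually (mem_interior_iff_mem_nhds.mp hp)
  obtain ⟨t, ht1, ht2⟩ := (h2.and self_mem_nhdsWithin).exists
  exact ⟨t, ht2, ht1⟩

lemma frontier_T : frontier T = (segment ℝ (0 : E 2) a1 ∪ segment ℝ (0 : E 2) a0) ∪
    segment ℝ a0 a1 := by
  rw [segA, segB, segC, T_closed.frontier_eq]
  ext p
  constructor
  · rintro ⟨hp, hpi⟩
    by_contra hcon
    simp only [mem_union, mem_ofPred_eq, hp, true_and, not_or] at hcon
    apply hpi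
    have hopen : IsOpen ({p : E 2 | 0 < p 0} ∩ ({p | 0 < p 1} ∩ {p | p 0 + p 1 < 1})) :=
      (isOpen_lt continuous_const (by fun_prop)).inter
        ((isOpen_lt continuous_const (by fun_prop)).inter
          (isOpen_lt (by fun_prop) continuous_const))
    apply interior_maximal _ hopen
    · exact ⟨lt_of_le_of_ne hp.1 (Ne.symm hcon.1.1), lt_of_le_of_ne hp.2.1 (Ne.symm hcon.1.2),
        lt_of_le_of_ne hp.2.2 hcon.2⟩
    · rintro q ⟨h1, h2, h3⟩
      exact ⟨le_of_lt h1, le_of_lt h2, le_of_lt h3⟩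
  · rintro ((⟨hp, h⟩ | ⟨hp, h⟩) | ⟨hp, h⟩)
    · refine ⟨hp, fun hi => ?_⟩
      obtain ⟨t, ht, h1⟩ := push hi (-a0)
      have := h1.1
      simp [a0] at this
      linarith
    · refine ⟨hp, fun hi => ?_⟩
      obtain ⟨t, ht, h1⟩ := push hi (-a1)
      have := h1.2.1
      simp [a1] at this
      linarith
    · refine ⟨hp, fun hi => ?_⟩
      obtain ⟨t, ht, h1⟩ := push hi a0
      have := h1.2.2
      simp [a0] at this
      linarith

lemma perimeter_T : μH[1] (frontier T) = ENNReal.ofReal (2 + Real.sqrt 2) := by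
  have mA : μH[1] (segment ℝ (0 : E 2) a1) = ENNReal.ofReal 1 := by
    rw [hausdorffMeasure_segment, edist_dist]; simp [a1]
  have mB : μH[1] (segment ℝ (0 : E 2) a0) = ENNReal.ofReal 1 := by
    rw [hausdorffMeasure_segment, edist_dist]; simp [a0]
  have mC : μH[1] (segment ℝ a0 a1) = ENNReal.ofReal (Real.sqrt 2) := by
    rw [hausdorffMeasure_segment, edist_dist, EuclideanSpace.dist_eq]
    simp [a0, a1, Fin.sum_univ_two]
    norm_num
  have cB : MeasurableSet (segment ℝ (0 : E 2) a0) := by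
    have h : IsClosed (segment ℝ (0 : E 2) a0) := by
      rw [segment_eq_image_lineMap]
      exact (isCompact_Icc.image (by fun_prop)).isClosed
    exact h.measurableSet
  have cC : MeasurableSet (segment ℝ a0 a1) := by
    have h : IsClosed (segment ℝ a0 a1) := by
      rw [segment_eq_image_lineMap]
      exact (isCompact_Icc.image (by fun_prop)).isClosed
    exact h.measurableSet
  have hna : NullSingletonClass (μH[1] : Measure (E 2)) :=
    Measure.nullSingletonClass_hausdorff _ (by norm_num)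
  have n1 : μH[1] (segment ℝ (0 : E 2) a1 ∩ segment ℝ (0 : E 2) a0) = 0 := by
    apply measure_mono_null (t := {0})
    · rw [segA, segB]
      rintro p ⟨⟨-, h1⟩, ⟨-, h2⟩⟩
      rw [mem_singleton_iff, dec p, h1, h2]
      simp
    · exact measure_singleton _
  have n2 : μH[1] ((segment ℝ (0 : E 2) a1 ∪ segment ℝ (0 : E 2) a0) ∩ segment ℝ a0 a1) = 0 := by
    apply measure_mono_null (t := {a0, a1})
    · rw [segA, segB, segC]
      rintro p ⟨⟨-, h1⟩ | ⟨-, h1⟩, ⟨-, h2⟩⟩
      · right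
        rw [mem_singleton_iff, dec p, h1]
        have : p 1 = 1 := by linarith
        rw [this]; simp
      · left
        rw [dec p, h1]
        have : p 0 = 1 := by linarith
        rw [this]; simp
    · exact (Set.toFinite _).measure_zero _
  rw [frontier_T]
  have e1 := measure_union_add_inter (μ := (μH[1] : Measure (E 2)))
    (segment ℝ (0 : E 2) a1 ∪ segment ℝ (0 : E 2) a0) cC
  have e2 := measure_union_add_inter (μ := (μH[1] : Measure (E 2)))
    (segment ℝ (0 : E 2) a1) cB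
  rw [n1, add_zero, mA, mB, ← ENNReal.ofReal_add (by norm_num) (by norm_num)] at e2
  rw [n2, add_zero, e2, mC, ← ENNReal.ofReal_add (by norm_num) (Real.sqrt_nonneg _)] at e1
  rw [e1]
  norm_num

lemma ell_K (i : Fin 3) : ell i K = (2 + Real.sqrt 2) / 2 := by
  unfold ell
  rw [sec_K, perimeter_T, ENNReal.toReal_ofReal (by positivity)]

lemma T_convex : Convex ℝ T := by
  intro x hx y hy a b ha hb hab
  obtain ⟨h1, h2, h3⟩ := hx
  obtain ⟨g1, g2, g3⟩ := hy
  refine ⟨?_, ?_, ?_⟩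
  · simp only [PiLp.add_apply, PiLp.smul_apply, smul_eq_mul]; positivity
  · simp only [PiLp.add_apply, PiLp.smul_apply, smul_eq_mul]; positivity
  · simp only [PiLp.add_apply, PiLp.smul_apply, smul_eq_mul]
    nlinarith

lemma K_convex : Convex ℝ K := by
  intro x hx y hy a b ha hb hab
  obtain ⟨h1, h2, h3, h4⟩ := hx
  obtain ⟨g1, g2, g3, g4⟩ := hy
  refine ⟨?_, ?_, ?_, ?_⟩
  · simp only [PiLp.add_apply, PiLp.smul_apply, smul_eq_mul]; positivity
  · simp only [PiLp.add_apply, PiLp.smul_apply, smul_eq_mul]; positivity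
  · simp only [PiLp.add_apply, PiLp.smul_apply, smul_eq_mul]; positivity
  · simp only [PiLp.add_apply, PiLp.smul_apply, smul_eq_mul]
    nlinarith

lemma K_compact : IsCompact K := by
  apply Metric.isCompact_of_isClosed_isBounded K_closed
  rw [isBounded_iff_forall_norm_le]
  refine ⟨2, fun x hx => ?_⟩
  obtain ⟨h0, h1, h2, h3⟩ := hx
  rw [EuclideanSpace.norm_eq, Real.sqrt_le_left (by norm_num)]
  simp [Fin.sum_univ_three]
  nlinarith

lemma K_interior : (interior K).Nonempty := by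
  have hopen : IsOpen ({p : E 3 | 0 < p 0} ∩ ({p | 0 < p 1} ∩ ({p | 0 < p 2} ∩
      {p | p 0 + p 1 + p 2 < 1}))) :=
    (isOpen_lt continuous_const (by fun_prop)).inter
      ((isOpen_lt continuous_const (by fun_prop)).inter
      ((isOpen_lt continuous_const (by fun_prop)).inter
        (isOpen_lt (by fun_prop) continuous_const)))
  refine ⟨WithLp.toLp 2 ![1 / 4, 1 / 4, 1 / 4], interior_maximal ?_ hopen ?_⟩
  · rintro q ⟨h1, h2, h3, h4⟩
    exact ⟨le_of_lt h1, le_of_lt h2, le_of_lt h3, le_of_lt h4⟩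
  · refine ⟨?_, ?_, ?_, ?_⟩ <;> simp <;> norm_num

lemma volume_T : volume T = ENNReal.ofReal (1 / 2) := by
  set c : E 2 := a0 + a1 with hc
  set T' : Set (E 2) := (fun p => c - p) ⁻¹' T with hT'
  have hmT : MeasurableSet T := T_closed.measurableSet
  have hmT' : MeasurableSet T' := hmT.preimage (by fun_prop)
  have hv : volume T' = volume T :=
    (Measure.measurePreserving_sub_left volume c).measure_preimage hmT.nullMeasurableSet
  have hU : T ∪ T' = (WithLp.ofLp : E 2 → Fin 2 → ℝ) ⁻¹' (Set.pi univ fun _ => Icc (0 : ℝ) 1) := by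
    ext p
    simp only [hT', T, hc, a0, a1, mem_union, mem_preimage, mem_ofPred_eq, mem_pi, mem_univ,
      true_implies, Fin.forall_fin_two, mem_Icc, PiLp.sub_apply, PiLp.add_apply,
      PiLp.single_apply]
    simp only [if_true, if_false, Fin.isValue, zero_ne_one, one_ne_zero]
    constructor
    · rintro (⟨h1, h2, h3⟩ | ⟨h1, h2, h3⟩)
      · refine ⟨⟨h1, by linarith⟩, h2, by linarith⟩
      · refine ⟨⟨by linarith, by linarith⟩, by linarith, by linarith⟩
    · rintro ⟨⟨h1, h2⟩, h3, h4⟩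
      by_cases h : p 0 + p 1 ≤ 1
      · left; exact ⟨h1, h3, h⟩
      · right; push Not at h; exact ⟨by linarith, by linarith, by linarith⟩
  have hvU : volume (T ∪ T') = 1 := by
    rw [hU, (PiLp.volume_preserving_ofLp (Fin 2)).measure_preimage
      (MeasurableSet.univ_pi fun _ => measurableSet_Icc).nullMeasurableSet, volume_pi_pi]
    simp
  have hI : volume (T ∩ T') = 0 := by
    apply measure_mono_null (t := frontier T) _ (T_convex.addHaar_frontier (volume : Measure (E 2)))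
    rw [frontier_T, segC]
    intro p hp
    right
    refine ⟨hp.1, ?_⟩
    have h1 := hp.1.2.2
    have h2 := hp.2.2.2
    simp [hc, a0, a1] at h2
    linarith
  have e := measure_union_add_inter (μ := (volume : Measure (E 2))) T hmT'
  rw [hvU, hI, hv, add_zero] at e
  have h2 : volume T + volume T = 2 * volume T := (two_mul _).symm
  rw [h2] at e
  have h3 : volume T = 2⁻¹ := by
    rw [← ENNReal.mul_right_inj (a := 2) (by norm_num) (by norm_num), ← e,
      ENNReal.mul_inv_cancel (by norm_num) (by norm_num)]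
  rw [h3, ENNReal.ofReal_div_of_pos (by norm_num)]
  simp

/-- embedding of the coordinate plane -/
noncomputable def emb (i : Fin 3) (p : E 2) : E 3 :=
  WithLp.toLp 2 (i.insertNth (0 : ℝ) p.ofLp : Fin 3 → ℝ)

lemma emb_isometry (i : Fin 3) : Isometry (emb i) := by
  apply Isometry.of_dist_eq
  intro p q
  rw [EuclideanSpace.dist_eq, EuclideanSpace.dist_eq]
  simp only [emb, ins0]
  fin_cases i <;> simp [Fin.sum_univ_three, Fin.sum_univ_two]

/-- isometric parametrization of the slanted plane -/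
noncomputable def g (q : E 2) : E 3 :=
  WithLp.toLp 2 ![1 / 3 + Real.sqrt 2 / 2 * q 0 + Real.sqrt 6 / 6 * q 1,
    1 / 3 - Real.sqrt 2 / 2 * q 0 + Real.sqrt 6 / 6 * q 1, 1 / 3 - Real.sqrt 6 / 3 * q 1]

lemma s2 : Real.sqrt 2 ^ 2 = 2 := Real.sq_sqrt (by norm_num)
lemma s6 : Real.sqrt 6 ^ 2 = 6 := Real.sq_sqrt (by norm_num)

lemma g_isometry : Isometry g := by
  apply Isometry.of_dist_eq
  intro p q
  rw [EuclideanSpace.dist_eq, EuclideanSpace.dist_eq]
  congr 1
  simp only [Real.dist_eq, sq_abs, Fin.sum_univ_three, Fin.sum_univ_two, g]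
  simp
  linear_combination ((p 0 - q 0) ^ 2 / 2) * s2 + ((p 1 - q 1) ^ 2 / 6) * s6

/-- the linear map taking the standard triangle to an equilateral one -/
noncomputable def M : E 2 →ₗ[ℝ] E 2 :=
  Matrix.toLin (EuclideanSpace.basisFun (Fin 2) ℝ).toBasis (EuclideanSpace.basisFun (Fin 2) ℝ).toBasis
    !![Real.sqrt 2 / 2, -(Real.sqrt 2 / 2); Real.sqrt 6 / 2, Real.sqrt 6 / 2]

lemma M_det : LinearMap.det M = Real.sqrt 2 * Real.sqrt 6 / 2 := by
  unfold M
  rw [LinearMap.det_toLin, Matrix.det_fin_two]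
  simp
  ring

lemma M_apply (p : E 2) : M p = WithLp.toLp 2 ![Real.sqrt 2 / 2 * (p 0 - p 1),
    Real.sqrt 6 / 2 * (p 0 + p 1)] := by
  ext i
  unfold M
  rw [Matrix.toLin_apply]
  fin_cases i <;> simp [Matrix.mulVec, Fin.sum_univ_two, dotProduct] <;> ring

lemma slanted : {x | x ∈ K ∧ x 0 + x 1 + x 2 = 1} ⊆
    (fun p => g (M p + WithLp.toLp 2 ![0, -(Real.sqrt 6 / 3)])) '' T := by
  rintro x ⟨⟨h0, h1, h2, -⟩, h3⟩
  refine ⟨WithLp.toLp 2 ![x 0, x 1], ⟨?_, ?_, ?_⟩, ?_⟩
  · simpa using h0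
  · simpa using h1
  · simp; linarith
  · change g (M _ + _) = x
    rw [M_apply]
    ext i
    have e2 := s2
    have e6 := s6
    have hx2 : x 2 = 1 - x 0 - x 1 := by linarith
    fin_cases i
    · simp [g]
      linear_combination ((x 0 - x 1) / 4) * e2 + ((x 0 + x 1) / 12 - 1 / 18) * e6
    · simp [g]
      linear_combination (-(x 0 - x 1) / 4) * e2 + ((x 0 + x 1) / 12 - 1 / 18) * e6
    · simp [g]
      rw [hx2]
      linear_combination (-(x 0 + x 1) / 6 + 1 / 9) * e6

lemma frontier_K : frontier K ⊆ ((emb 0 '' T ∪ emb 1 '' T) ∪ emb 2 '' T) ∪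
    {x | x ∈ K ∧ x 0 + x 1 + x 2 = 1} := by
  rw [K_closed.frontier_eq]
  rintro p ⟨hp, hpi⟩
  by_contra hcon
  simp only [mem_union, not_or] at hcon
  obtain ⟨⟨⟨n0, n1⟩, n2⟩, n3⟩ := hcon
  apply hpi
  have hopen : IsOpen ({p : E 3 | 0 < p 0} ∩ ({p | 0 < p 1} ∩ ({p | 0 < p 2} ∩
      {p | p 0 + p 1 + p 2 < 1}))) :=
    (isOpen_lt continuous_const (by fun_prop)).inter
      ((isOpen_lt continuous_const (by fun_prop)).inter
      ((isOpen_lt continuous_const (by fun_prop)).inter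
        (isOpen_lt (by fun_prop) continuous_const)))
  obtain ⟨h0, h1, h2, h3⟩ := hp
  apply interior_maximal _ hopen
  · refine ⟨lt_of_le_of_ne h0 ?_, lt_of_le_of_ne h1 ?_, lt_of_le_of_ne h2 ?_,
      lt_of_le_of_ne h3 ?_⟩
    · intro h
      apply n0
      refine ⟨WithLp.toLp 2 ![p 1, p 2], ⟨by simpa using h1, by simpa using h2, ?_⟩, ?_⟩
      · simp; linarith
      · ext i
        simp only [emb, ins0]
        fin_cases i <;> simp [← h]
    · intro h
      apply n1
      refine ⟨WithLp.toLp 2 ![p 0, p 2], ⟨by simpa using h0, by simpa using h2, ?_⟩, ?_⟩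
      · simp; linarith
      · ext i
        simp only [emb, ins0]
        fin_cases i <;> simp [← h]
    · intro h
      apply n2
      refine ⟨WithLp.toLp 2 ![p 0, p 1], ⟨by simpa using h0, by simpa using h1, ?_⟩, ?_⟩
      · simp; linarith
      · ext i
        simp only [emb, ins0]
        fin_cases i <;> simp [← h]
    · intro h
      exact n3 ⟨⟨h0, h1, h2, h3⟩, h⟩
  · rintro q ⟨h1, h2, h3, h4⟩
    exact ⟨le_of_lt h1, le_of_lt h2, le_of_lt h3, le_of_lt h4⟩

lemma face_emb (i : Fin 3) : μHE[2] (emb i '' T) = ENNReal.ofReal (1 / 2) := by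
  rw [(emb_isometry i).euclideanHausdorffMeasure_image,
    EuclideanSpace.euclideanHausdorffMeasure_eq_volume, volume_T]

lemma face_slanted : μHE[2] {x | x ∈ K ∧ x 0 + x 1 + x 2 = 1} ≤
    ENNReal.ofReal (Real.sqrt 2 * Real.sqrt 6 / 4) := by
  refine (measure_mono slanted).trans ?_
  have h1 : (fun p => g (M p + WithLp.toLp 2 ![0, -(Real.sqrt 6 / 3)])) '' T =
      g '' ((fun p => p + WithLp.toLp 2 ![0, -(Real.sqrt 6 / 3)]) '' (M '' T)) := by
    rw [image_image, image_image]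
  rw [h1, g_isometry.euclideanHausdorffMeasure_image,
    EuclideanSpace.euclideanHausdorffMeasure_eq_volume]
  have h2 : volume ((fun p : E 2 => p + WithLp.toLp 2 ![0, -(Real.sqrt 6 / 3)]) '' (M '' T)) =
      volume (M '' T) := by
    rw [image_add_right, measure_preimage_add_right]
  rw [h2, Measure.addHaar_image_linearMap, M_det, volume_T, ← ENNReal.ofReal_mul (abs_nonneg _),
    abs_of_nonneg (by positivity)]
  apply le_of_eq
  congr 1
  ring

lemma V2_K : V2 K ≤ (3 / 2 + Real.sqrt 2 * Real.sqrt 6 / 4) / 2 := by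
  unfold V2
  have h1 : μHE[2] (frontier K) ≤ ENNReal.ofReal (3 / 2 + Real.sqrt 2 * Real.sqrt 6 / 4) := by
    refine (measure_mono frontier_K).trans ?_
    refine (measure_union_le _ _).trans ?_
    have h2 : μHE[2] ((emb 0 '' T ∪ emb 1 '' T) ∪ emb 2 '' T) ≤ ENNReal.ofReal (3 / 2) := by
      refine (measure_union_le _ _).trans ?_
      refine (add_le_add (measure_union_le _ _) le_rfl).trans ?_
      rw [face_emb, face_emb, face_emb, ← ENNReal.ofReal_add (by norm_num) (by norm_num),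
        ← ENNReal.ofReal_add (by norm_num) (by norm_num)]
      norm_num
    refine (add_le_add h2 face_slanted).trans ?_
    rw [← ENNReal.ofReal_add (by norm_num) (by positivity)]
  have h3 := ENNReal.toReal_mono ENNReal.ofReal_ne_top h1
  rw [ENNReal.toReal_ofReal (by positivity)] at h3
  linarith

/-- The simplex with vertices `0, e₁, e₂, e₃` violates the proposed Heron-type lower bound. -/
theorem result : ∃ K : Set (E 3), IsCompact K ∧ Convex ℝ K ∧ (interior K).Nonempty ∧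
    V2 K ^ 2 < 1 / 16 * (∑ i, ell i K ^ 2) ^ 2 - 1 / 8 * ∑ i, ell i K ^ 4 := by
  refine ⟨K, K_compact, K_convex, K_interior, ?_⟩
  simp only [ell_K, Fin.sum_univ_three]
  have h1 := V2_K
  have h0 : 0 ≤ V2 K := by unfold V2; positivity
  have h12 : Real.sqrt 2 * Real.sqrt 6 = Real.sqrt 12 := by
    rw [← Real.sqrt_mul (by norm_num)]; norm_num
  rw [h12] at h1
  have h12' : Real.sqrt 12 ≤ 3.6 := by
    rw [Real.sqrt_le_left (by norm_num)]; norm_num
  have h2 : (1.4 : ℝ) ≤ Real.sqrt 2 := by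
    apply Real.le_sqrt_of_sq_le; norm_num
  have h3 : V2 K ≤ 1.2 := by linarith
  have h4 : V2 K ^ 2 ≤ 1.2 ^ 2 := pow_le_pow_left₀ h0 h3 2
  have h5 : (1.7 : ℝ) ≤ (2 + Real.sqrt 2) / 2 := by linarith
  have h6 : (1.7 : ℝ) ^ 4 ≤ ((2 + Real.sqrt 2) / 2) ^ 4 := pow_le_pow_left₀ (by norm_num) h5 4
  have h7 : 1 / 16 * (((2 + Real.sqrt 2) / 2) ^ 2 + ((2 + Real.sqrt 2) / 2) ^ 2 +
      ((2 + Real.sqrt 2) / 2) ^ 2) ^ 2 - 1 / 8 * (((2 + Real.sqrt 2) / 2) ^ 4 +
      ((2 + Real.sqrt 2) / 2) ^ 4 + ((2 + Real.sqrt 2) / 2) ^ 4) =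
      3 / 16 * ((2 + Real.sqrt 2) / 2) ^ 4 := by ring
  rw [h7]
  norm_num at h4 h6 ⊢
  linarith

end Pool.Agent.Results.MP_6df474_gt.SimplexViolates
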